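import Pool.Agent.Work.MP_223b32_FY.Interface2
import Pool.Agent.Work.MP_223b32_FF.COVER

/-!
Block COVK (helper76): few cubes contain all the real Weil polynomials. Adapted from FF.COVER.
-/

set_option autoImplicit false

namespace Pool.Agent.Work.FY

open Polynomial Finset TensorProduct Pool.Agent.Work.MP_223b32_ag
open Pool.Agent.Work.MP_223b32_ag_56 Pool.Agent.Work.FF Pool.Agent.Work.T3
open Pool.Agent.Work.FF.COVER_

theorem stmt_COVK (hU : FF.Stmt_UPPER) (hC : FF.Stmt_CUBE) : Stmt_COVK := by
  classical
  intro q g k R hq hg hkg hR hRk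
  have hR' : (0 : ℤ) < R := by exact_mod_cast hR
  have hfin : (realWeil q g).Finite := realWeil_finite q
  -- the coefficient vectors
  set V : Finset (Fin g → ℤ) := hfin.toFinset.image (fun P => fun i : Fin g => P.coeff i) with hV
  have hVmem : ∀ b ∈ V, mk b ∈ realWeil q g := by
    intro b hb
    rw [hV, mem_image] at hb
    obtain ⟨P, hP, rfl⟩ := hb
    rw [Set.Finite.mem_toFinset] at hP
    rw [mk_surj hP.1 hP.2.1]
    exact hP
  set K : Finset (Fin g → ℤ) := V.image (cl (g - k) R) with hK
  -- the union of the classes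
  set A : Finset (Fin g → ℤ) := K.biUnion (fib (g - k) R) with hA
  have hAcard : A.card = K.card * R ^ (g - k) := by
    rw [hA, card_biUnion]
    · rw [sum_congr rfl fun z _ => card_fib (g - k) R (Nat.sub_le g k) z, sum_const, smul_eq_mul]
    · intro z _ z' _ hne
      show Disjoint (fib (g - k) R z) (fib (g - k) R z')
      rw [Finset.disjoint_left]
      intro b hb hb'
      rw [mem_fib hR] at hb hb'
      exact hne (hb.symm.trans hb')
  have hAbd : (A.card : ℝ) ≤ 200 ^ g * √(q : ℝ) ^ (g * (g + 1) / 2) / √(g.factorial : ℝ) := by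
    rw [← card_image_of_injective A mk_injective]
    refine hU q g hq hg _ fun P' hP' => ?_
    rw [mem_image] at hP'
    obtain ⟨b', hb', rfl⟩ := hP'
    refine ⟨mk_monic b', mk_natDegree b', ?_⟩
    rw [hA, mem_biUnion] at hb'
    obtain ⟨z, hz, hbz⟩ := hb'
    rw [hK, mem_image] at hz
    obtain ⟨b, hb, hz⟩ := hz
    rw [mem_fib hR] at hbz
    have hcl : cl (g - k) R b' = cl (g - k) R b := hbz.trans hz.symm
    have hcl' : ∀ i : Fin g, if (i : ℕ) < g - k then b' i / (R : ℤ) = b i / R else b' i = b i := by
      intro i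
      have := congrFun hcl i
      unfold cl at this
      split_ifs with h
      · rwa [if_pos h, if_pos h] at this
      · rwa [if_neg h, if_neg h] at this
    have hclose : ∀ i : Fin g, |b' i - b i| ≤ R := by
      intro i
      have h1 := hcl' i
      split_ifs at h1 with h
      · have e1 := Int.mul_ediv_add_emod (b' i) R
        have e2 := Int.mul_ediv_add_emod (b i) R
        have e3 := Int.emod_nonneg (b' i) hR'.ne'
        have e4 := Int.emod_nonneg (b i) hR'.ne'
        have e5 := Int.emod_lt_of_pos (b' i) hR'
        have e6 := Int.emod_lt_of_pos (b i) hR'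
        rw [h1] at e1
        rw [abs_le]
        constructor <;> linarith
      · rw [h1, sub_self, abs_zero]
        exact hR'.le
    have hcoef : ∀ (c : Fin g → ℤ) (i : ℕ), g ≤ i → (mk c).coeff i = if i = g then 1 else 0 := by
      intro c i hi
      rcases hi.eq_or_lt with h | h
      · subst h
        rw [if_pos rfl]
        have := mk_monic c
        rw [Monic, leadingCoeff, mk_natDegree] at this
        exact this
      · rw [if_neg h.ne']
        exact coeff_eq_zero_of_natDegree_lt (by rw [mk_natDegree]; exact h)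
    refine hC q g k R (mk b) (mk b') hq hg hkg (hVmem b hb) (mk_monic b') (mk_natDegree b') ?_ ?_ hRk
    · intro i hi
      rcases Nat.lt_or_ge i g with h | h
      · have h1 := mk_coeff b ⟨i, h⟩
        have h2 := mk_coeff b' ⟨i, h⟩
        simp only at h1 h2
        rw [h1, h2]
        have h3 := hcl' ⟨i, h⟩
        rwa [if_neg (by simp only; omega)] at h3
      · rw [hcoef b i h, hcoef b' i h]
    · intro i
      rcases Nat.lt_or_ge i g with h | h
      · have h1 := mk_coeff b ⟨i, h⟩
        have h2 := mk_coeff b' ⟨i, h⟩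
        simp only at h1 h2
        rw [h1, h2]
        exact_mod_cast hclose ⟨i, h⟩
      · rw [hcoef b i h, hcoef b' i h, sub_self, abs_zero]
        exact_mod_cast hR'.le
  -- the cubes
  set φ : (Fin g → ℤ) → (Fin g → ℤ) × (Fin (g - k) → ℤ) := fun z =>
    (z, fun i => z (Fin.castLE (Nat.sub_le g k) i) * R) with hφ
  have hφinj : Function.Injective φ := fun z z' h => congrArg Prod.fst h
  refine ⟨K.image φ, ?_, ?_⟩
  · rw [card_image_of_injective K hφinj]
    calc (K.card : ℝ) * (R : ℝ) ^ (g - k) = ((K.card * R ^ (g - k) : ℕ) : ℝ) := by push_cast; ring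
      _ = (A.card : ℝ) := by rw [hAcard]
      _ ≤ _ := hAbd
  · intro h hh
    set b : Fin g → ℤ := fun i : Fin g => h.coeff i with hb
    have hbV : b ∈ V := by
      rw [hV, mem_image]
      exact ⟨h, by rw [Set.Finite.mem_toFinset]; exact hh, rfl⟩
    have hmkb : mk b = h := mk_surj hh.1 hh.2.1
    refine ⟨φ (cl (g - k) R b), mem_image_of_mem φ (mem_image_of_mem _ hbV),
      fun i => b (Fin.castLE (Nat.sub_le g k) i), ?_, ?_⟩
    · intro i
      have hb2 := (mem_fib hR (cl (g - k) R b) b).2 rfl
      rw [fib, Fintype.mem_piFinset] at hb2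
      have h1 := hb2 (Fin.castLE (Nat.sub_le g k) i)
      rw [if_pos (by simp), mem_Ico] at h1
      exact h1
    · have h1 : glue (fun i : Fin (g - k) => b (Fin.castLE (Nat.sub_le g k) i))
          (cl (g - k) R b) = b := by
        funext i
        unfold glue
        split_ifs with hi
        · rfl
        · unfold cl
          rw [if_neg hi]
      show mk (glue (fun i : Fin (g - k) => b (Fin.castLE (Nat.sub_le g k) i))
          (cl (g - k) R b)) = h
      rw [h1, hmkb]

end Pool.Agent.Work.FY
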